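import Pool.Agent.Q19.UU4

/-!
# The non-commuting number of the group of unitriangular 4 x 4 matrices is not a polynomial

`omega (UU 4 F)` is at least `q³ + q² - q + 1` in characteristic two and at most `q³ + q² - q` for
`q > 3` odd (see `Pool.Agent.Q19.UU4`).
-/

namespace Pool.Agent.Results.MP_671173_al.NotPolynomial

open Pool.Agent.Q19.UU4

/-- For every rational polynomial `P` and every bound `q₀` there is a finite field `F` with
`q ≥ q₀` elements such that the largest size of a non-commuting subset of the group of upper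
unitriangular `4 × 4` matrices over `F` is not `P(q)`. -/
theorem result (P : Polynomial ℚ) (q₀ : ℕ) :
    ∃ (F : Type) (_ : Field F) (_ : Fintype F), q₀ ≤ Fintype.card F ∧
      (omega (UU 4 F) : ℚ) ≠ P.eval (Fintype.card F : ℚ) := by
  obtain ⟨F, hF, hFin, h1, h2⟩ := not_polynomial (P.map (algebraMap ℚ ℝ)) q₀
  refine ⟨F, hF, hFin, h1, fun h => h2 ?_⟩
  rw [Polynomial.eval_map_algebraMap]
  have h3 : ((omega (UU 4 F) : ℚ) : ℝ) = ((P.eval (Fintype.card F : ℚ) : ℚ) : ℝ) := by rw [h]
  rw [Rat.cast_natCast] at h3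
  rw [h3]
  have h4 : (Fintype.card F : ℝ) = algebraMap ℚ ℝ (Fintype.card F : ℚ) := by simp
  rw [h4, Polynomial.aeval_algebraMap_apply]
  simp

end Pool.Agent.Results.MP_671173_al.NotPolynomial
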